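import Pool.Agent.H8.PU.Targets

/-!
# LF: a pendant vertex does not change planarity
-/

set_option autoImplicit false

namespace Pool.Agent.H34.PU

open Pool.Agent.H8.PL Pool.Agent.H8.PU

section

variable {V : Type} {n : ℕ} (e : V ≃ Fin n) (G : SimpleGraph V)

/-- the adjacency relation on numbers -/
def lfA (a b : ℕ) : Prop := ∃ (ha : a < n) (hb : b < n), G.Adj (e.symm ⟨a, ha⟩) (e.symm ⟨b, hb⟩)

theorem lf_symm (a b : ℕ) (h : lfA e G a b) : lfA e G b a := by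
  obtain ⟨ha, hb, h⟩ := h
  exact ⟨hb, ha, h.symm⟩

theorem lf_irr (a : ℕ) : ¬ lfA e G a a := by
  rintro ⟨_, _, h⟩
  exact G.loopless.irrefl _ h

theorem lf_iff (x y : V) : G.Adj x y ↔ lfA e G (e x).1 (e y).1 := by
  constructor
  · intro h
    refine ⟨(e x).2, (e y).2, ?_⟩
    simpa using h
  · rintro ⟨_, _, h⟩
    simpa using h

theorem lf_pl (hIS : Z_IS) :
    IsPlanar G ↔ IsPlanar (gr n (lfA e G) (lf_symm e G) (lf_irr e G)) := by
  constructor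
  · intro h
    exact (hIS V (Fin n) e G _ (fun a b => lf_iff e G a b)).1 h
  · intro h
    refine (hIS (Fin n) V e.symm _ G (fun a b => ?_)).1 h
    constructor
    · rintro ⟨_, _, h⟩
      exact h
    · intro h
      exact ⟨a.2, b.2, h⟩

end

theorem pf_lf (hA1 : Y_A1) (hA2 : Y_A2) (hQ1 : Z_Q1) (hQ2 : Z_Q2) (hIS : Z_IS) : Y_LF := by
  intro V _ G G' u v huv hu hG'
  set n := Nat.card V
  let e : V ≃ Fin n := Finite.equivFin V
  have h1 : ∀ b, ¬ lfA e G (e u).1 b := by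
    rintro b ⟨_, hb, h⟩
    refine hu (e.symm ⟨b, hb⟩) ?_
    simpa using h
  have h2 : ∀ a b, lfA e G' a b ↔ lfA e G a b ∨ (a = (e u).1 ∧ b = (e v).1) ∨
      (a = (e v).1 ∧ b = (e u).1) := by
    have h3 : ∀ (w : V) (a : ℕ) (ha : a < n), e.symm ⟨a, ha⟩ = w ↔ a = (e w).1 := by
      intro w a ha
      rw [Equiv.symm_apply_eq, Fin.ext_iff]
    intro a b
    constructor
    · rintro ⟨ha, hb, h⟩
      rcases (hG' _ _).1 h with h | ⟨h, h'⟩ | ⟨h, h'⟩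
      · exact Or.inl ⟨ha, hb, h⟩
      · exact Or.inr (Or.inl ⟨(h3 _ _ _).1 h, (h3 _ _ _).1 h'⟩)
      · exact Or.inr (Or.inr ⟨(h3 _ _ _).1 h, (h3 _ _ _).1 h'⟩)
    · rintro (⟨ha, hb, h⟩ | ⟨h, h'⟩ | ⟨h, h'⟩)
      · exact ⟨ha, hb, (hG' _ _).2 (Or.inl h)⟩
      · have ha : a < n := by rw [h]; exact (e u).2
        have hb : b < n := by rw [h']; exact (e v).2
        exact ⟨ha, hb, (hG' _ _).2 (Or.inr (Or.inl ⟨(h3 _ _ ha).2 h, (h3 _ _ hb).2 h'⟩))⟩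
      · have ha : a < n := by rw [h]; exact (e v).2
        have hb : b < n := by rw [h']; exact (e u).2
        exact ⟨ha, hb, (hG' _ _).2 (Or.inr (Or.inr ⟨(h3 _ _ ha).2 h, (h3 _ _ hb).2 h'⟩))⟩
  have h4 : (e u).1 ≠ (e v).1 := fun h => huv (e.injective (Fin.ext h))
  rw [lf_pl e G hIS, lf_pl e G' hIS]
  constructor
  · intro h
    obtain ⟨pos, fid, rt, rk, -, -, -, hc⟩ := hQ1 n _ _ _ h
    obtain ⟨pos', fid', rt', rk', hc'⟩ := hA1 n (lfA e G) (lfA e G') (e u).1 (e v).1 (e u).2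
      (e v).2 h4 (lf_symm e G) (lf_irr e G) h1 h2 ⟨pos, fid, rt, rk, hc⟩
    exact hQ2 n _ _ _ pos' fid' rt' rk' hc'
  · intro h
    obtain ⟨pos, fid, rt, rk, -, -, -, hc⟩ := hQ1 n _ _ _ h
    obtain ⟨pos', fid', rt', rk', hc'⟩ := hA2 n (lfA e G) (lfA e G') (e u).1 (e v).1 (e u).2
      (e v).2 h4 (lf_symm e G) (lf_irr e G) h1 h2 ⟨pos, fid, rt, rk, hc⟩
    exact hQ2 n _ _ _ pos' fid' rt' rk' hc'

end Pool.Agent.H34.PU
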